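import Pool.Agent.N228.AZ.Stm2

/-!
# AZ2/UP: two-sided densities from the lower bounds
-/

set_option autoImplicit false
open Metric MeasureTheory Set Filter Topology

namespace Pool.Agent.N849.AZ

open Pool.Agent.W747.MB Pool.Agent.TH363.CD Pool.Agent.N228.AZ

theorem cont_Y (n : ℕ) : Continuous (Y n) := by
  unfold Pool.Agent.W747.MB.Y
  exact continuous_const.mul (continuous_norm.pow _)

theorem meas_Zn (n : ℕ) (a b : ℝ) : MeasurableSet (Zn n a b) :=
  (measurableSet_le measurable_const (cont_Y n).measurable).inter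
    (measurableSet_le (cont_Y n).measurable measurable_const)

theorem Zn_fin {n : ℕ} (hn : 2 ≤ n) (a b : ℝ) : volume (Zn n a b) ≠ ⊤ := by
  have h1 : Zn n a b ⊆ closedBall 0 (max 1 b) := by
    rintro c ⟨-, hc⟩
    rw [mem_closedBall, dist_zero_right]
    by_contra hcon
    push Not at hcon
    have h2 : 1 < ‖c‖ := (le_max_left _ _).trans_lt hcon
    have h3 : b < ‖c‖ := (le_max_right _ _).trans_lt hcon
    have h4 : ‖c‖ ≤ ‖c‖ ^ (n - 1) := le_self_pow₀ h2.le (by omega)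
    have h5 : (1 : ℝ) ≤ n := by exact_mod_cast (by omega : 1 ≤ n)
    unfold Pool.Agent.W747.MB.Y at hc
    have h6 : ‖c‖ ^ (n - 1) ≤ n * ‖c‖ ^ (n - 1) := le_mul_of_one_le_left (by positivity) h5
    linarith
  exact ((measure_mono h1).trans_lt measure_closedBall_lt_top).ne

theorem sum_half (k : ℕ) : ∑ j ∈ Finset.Icc 1 k, (1 / 2 : ℝ) ^ j + (1 / 2) ^ k = 1 := by
  induction k with
  | zero => simp
  | succ k ih =>
    rw [Finset.sum_Icc_succ_top (by omega)]
    have h1 : (1 / 2 : ℝ) ^ (k + 1) + (1 / 2) ^ (k + 1) = (1 / 2) ^ k := by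
      rw [pow_succ]; ring
    rw [add_assoc, h1, ih]

theorem abstract_up (k : ℕ) (e : ℕ → ℝ) (e0 V δ : ℝ) (hV : 0 < V) (hδ : 0 < δ)
    (hlow : ∀ j ∈ Finset.Icc 1 k, ((1 / 2) ^ j - δ / (k + 1)) * V ≤ e j)
    (hlow0 : ((1 / 2) ^ k - δ / (k + 1)) * V ≤ e0)
    (hsum : ∑ j ∈ Finset.Icc 1 k, e j + e0 ≤ V) :
    (∀ j ∈ Finset.Icc 1 k, |e j / V - (1 / 2) ^ j| ≤ δ) ∧ |e0 / V - (1 / 2) ^ k| ≤ δ := by
  have hk : (0 : ℝ) < (k : ℝ) + 1 := by positivity
  have hk0 : (0 : ℝ) ≤ k := Nat.cast_nonneg k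
  have hδ' : 0 < δ / (k + 1) := by positivity
  have hδk : δ / (k + 1) + k * (δ / (k + 1)) = δ := by field_simp; ring
  have hδk1 : δ / (k + 1) ≤ δ := by nlinarith
  have hkδ : (k : ℝ) * (δ / (k + 1)) ≤ δ := by linarith
  have hlowS : ∀ s ⊆ Finset.Icc 1 k, (∑ j ∈ s, (1 / 2 : ℝ) ^ j) * V - s.card * (δ / (k + 1)) * V ≤
      ∑ j ∈ s, e j := by
    intro s hs
    have h1 : (∑ j ∈ s, (1 / 2 : ℝ) ^ j) * V - s.card * (δ / (k + 1)) * V =
        ∑ j ∈ s, ((1 / 2) ^ j - δ / (k + 1)) * V := by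
      rw [← Finset.sum_mul, Finset.sum_sub_distrib, Finset.sum_const, nsmul_eq_mul]
      ring
    rw [h1]
    exact Finset.sum_le_sum fun j hj => hlow j (hs hj)
  have hS := sum_half k
  constructor
  · intro i hi
    have h1 := hlowS ((Finset.Icc 1 k).erase i) (Finset.erase_subset _ _)
    have h2 := Finset.add_sum_erase (Finset.Icc 1 k) e hi
    have h3 := Finset.add_sum_erase (Finset.Icc 1 k) (fun j => (1 / 2 : ℝ) ^ j) hi
    beta_reduce at h3
    rw [Finset.card_erase_of_mem hi, Nat.card_Icc, Nat.add_sub_cancel] at h1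
    have hk1 : 1 ≤ k := by
      rw [Finset.mem_Icc] at hi
      omega
    rw [Nat.cast_sub hk1, Nat.cast_one] at h1
    have h4 := hlow i hi
    have h5 : e i ≤ ((1 / 2) ^ i + δ) * V := by
      have h6 : e i ≤ V - ((∑ j ∈ (Finset.Icc 1 k).erase i, (1 / 2 : ℝ) ^ j) * V -
          ((k : ℝ) - 1) * (δ / (k + 1)) * V) - ((1 / 2) ^ k - δ / (k + 1)) * V := by linarith
      have h7 : V - ((∑ j ∈ (Finset.Icc 1 k).erase i, (1 / 2 : ℝ) ^ j) * V -
          ((k : ℝ) - 1) * (δ / (k + 1)) * V) - ((1 / 2) ^ k - δ / (k + 1)) * V =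
          ((1 / 2) ^ i + k * (δ / (k + 1))) * V := by
        have h8 : ∑ j ∈ (Finset.Icc 1 k).erase i, (1 / 2 : ℝ) ^ j =
            1 - (1 / 2) ^ k - (1 / 2) ^ i := by linarith
        rw [h8]
        ring
      rw [h7] at h6
      exact h6.trans (mul_le_mul_of_nonneg_right (by linarith) hV.le)
    have h6 : ((1 / 2) ^ i - δ) * V ≤ e i :=
      (mul_le_mul_of_nonneg_right (by linarith) hV.le).trans h4
    rw [abs_le]
    constructor
    · have : (1 / 2) ^ i - δ ≤ e i / V := by rwa [le_div_iff₀ hV]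
      linarith
    · have : e i / V ≤ (1 / 2) ^ i + δ := by rwa [div_le_iff₀ hV]
      linarith
  · have h1 := hlowS (Finset.Icc 1 k) le_rfl
    rw [Nat.card_Icc, Nat.add_sub_cancel] at h1
    have h5 : e0 ≤ ((1 / 2) ^ k + δ) * V := by
      have h6 : e0 ≤ V - ((∑ j ∈ Finset.Icc 1 k, (1 / 2 : ℝ) ^ j) * V -
          (k : ℝ) * (δ / (k + 1)) * V) := by linarith
      have h7 : V - ((∑ j ∈ Finset.Icc 1 k, (1 / 2 : ℝ) ^ j) * V -
          (k : ℝ) * (δ / (k + 1)) * V) = ((1 / 2) ^ k + k * (δ / (k + 1))) * V := by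
        have h8 : ∑ j ∈ Finset.Icc 1 k, (1 / 2 : ℝ) ^ j = 1 - (1 / 2) ^ k := by linarith
        rw [h8]
        ring
      rw [h7] at h6
      exact h6.trans (mul_le_mul_of_nonneg_right (by linarith) hV.le)
    have h6 : ((1 / 2) ^ k - δ) * V ≤ e0 :=
      (mul_le_mul_of_nonneg_right (by linarith) hV.le).trans hlow0
    rw [abs_le]
    constructor
    · have : (1 / 2) ^ k - δ ≤ e0 / V := by rwa [le_div_iff₀ hV]
      linarith
    · have : e0 / V ≤ (1 / 2) ^ k + δ := by rwa [div_le_iff₀ hV]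
      linarith

theorem toReal_low {x : ℝ} {u v : ENNReal} (hu : u ≠ ⊤) (hv : v ≠ ⊤)
    (h : ENNReal.ofReal x * u ≤ v) : x * u.toReal ≤ v.toReal := by
  rw [← ENNReal.ofReal_toReal hu, ← ENNReal.ofReal_toReal hv,
    ← ENNReal.ofReal_mul' ENNReal.toReal_nonneg,
    ENNReal.ofReal_le_ofReal_iff ENNReal.toReal_nonneg] at h
  exact h

theorem main : Pool.Agent.N228.AZ.P_UP := by
  intro hMeas hZone k δ hk hδ
  have hk0 : (0 : ℝ) < (k : ℝ) + 1 := by positivity
  obtain ⟨A, hA1, hA⟩ := hZone k (δ / (k + 1)) hk (by positivity)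
  refine ⟨max A 2, le_max_of_le_left hA1, ?_⟩
  filter_upwards [hA, eventually_ge_atTop (10 ^ 6), (tendsto_iterlog k).eventually_ge_atTop 1]
    with n hn hn6 hlog a b ha hab hb
  have hn2 : 2 ≤ n := by omega
  have hm2 : (2 : ℝ) ≤ max A 2 := le_max_right _ _
  have hmA : A ≤ max A 2 := le_max_left _ _
  have ha2 : 2 ≤ a := by nlinarith
  have hb4 : 2 * a ≤ b := (mul_le_mul_of_nonneg_right hm2 (by linarith)).trans hab
  have hlk : 0 ≤ Real.log^[k - 1] (n : ℝ) := by
    by_contra hcon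
    push Not at hcon
    have : Real.log^[k - 1] (n : ℝ) / max A 2 < 0 := div_neg_of_neg_of_pos hcon (by linarith)
    linarith
  obtain ⟨h1, h2⟩ := hn a b ((mul_le_mul_of_nonneg_right hmA (by linarith)).trans ha)
    ((mul_le_mul_of_nonneg_right hmA (by linarith)).trans hab)
    (hb.trans (div_le_div_of_nonneg_left hlk (by linarith) hmA))
  have hZf := Zn_fin hn2 a b
  have hZm := meas_Zn n a b
  have hV : 0 < (volume (Zn n a b)).toReal := by
    rw [ENNReal.toReal_pos_iff]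
    refine ⟨?_, lt_top_iff_ne_top.2 hZf⟩
    have h3 := annulus_lower hn6 (a := a) (b := b) (by linarith) (by linarith)
    refine lt_of_lt_of_le ?_ h3
    rw [ENNReal.ofReal_pos]
    have h4 : 1 < b / a := by
      rw [one_lt_div (by linarith)]
      linarith
    have h5 : (0 : ℝ) < n := by
      have : 0 < n := by omega
      exact_mod_cast this
    exact div_pos (Real.log_pos h4) h5
  have hsub : ∀ s : Set ℂ, volume (s ∩ Zn n a b) ≠ ⊤ := fun s =>
    ((measure_mono Set.inter_subset_right).trans_lt (lt_top_iff_ne_top.2 hZf)).ne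
  have hsub0 : volume (Zn n a b \ N62a1eb23.multibrotSet n) ≠ ⊤ :=
    ((measure_mono Set.sdiff_subset).trans_lt (lt_top_iff_ne_top.2 hZf)).ne
  -- the sum of the volumes
  have hsum : ∑ j ∈ Finset.Icc 1 k, volume (Ex n (j + 1) ∩ Zn n a b) +
      volume (Zn n a b \ N62a1eb23.multibrotSet n) ≤ volume (Zn n a b) := by
    have hmeas : ∀ j ∈ Finset.Icc 1 k, MeasurableSet (Ex n (j + 1) ∩ Zn n a b) := fun j _ =>
      ((hMeas n hn2).2 (j + 1)).1.inter hZm
    rw [← measure_biUnion_finset ?_ hmeas, ← measure_union ?_ (hZm.diff (hMeas n hn2).1)]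
    · refine measure_mono (Set.union_subset (Set.iUnion₂_subset fun j _ =>
        Set.inter_subset_right) Set.sdiff_subset)
    · rw [Set.disjoint_left]
      rintro c hc ⟨-, hc'⟩
      rw [Set.mem_iUnion₂] at hc
      obtain ⟨j, -, ⟨z, hz, -⟩, -⟩ := hc
      exact hc' (mem_multibrot hn2 hz)
    · intro i _ j _ hij
      rw [Function.onFun, Set.disjoint_left]
      rintro c ⟨⟨z, hz, hz1⟩, -⟩ ⟨⟨z', hz', hz1'⟩, -⟩
      have h3 := period_unique hn2 hz hz'
      rw [hz1, hz1'] at h3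
      exact hij (by omega)
  have hsum' : ∑ j ∈ Finset.Icc 1 k, (volume (Ex n (j + 1) ∩ Zn n a b)).toReal +
      (volume (Zn n a b \ N62a1eb23.multibrotSet n)).toReal ≤ (volume (Zn n a b)).toReal := by
    have h3 := (ENNReal.toReal_le_toReal (ne_top_of_le_ne_top hZf hsum) hZf).2 hsum
    rw [ENNReal.toReal_add (ne_top_of_le_ne_top hZf (le_self_add.trans hsum)) hsub0,
      ENNReal.toReal_sum (fun j _ => hsub _)] at h3
    exact h3
  obtain ⟨h3, h4⟩ := abstract_up k (fun j => (volume (Ex n (j + 1) ∩ Zn n a b)).toReal)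
    (volume (Zn n a b \ N62a1eb23.multibrotSet n)).toReal (volume (Zn n a b)).toReal δ hV hδ
    (fun j hj => by
      rw [Finset.mem_Icc] at hj
      exact toReal_low hZf (hsub _) (h1 j hj.1 hj.2))
    (toReal_low hZf hsub0 h2) hsum'
  exact ⟨fun j hj1 hj2 => h3 j (Finset.mem_Icc.2 ⟨hj1, hj2⟩), h4⟩

end Pool.Agent.N849.AZ
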