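import Pool.Agent.N228.AZ.Stm3
import Pool.Agent.N951.AZ.Pure

/-!
# AZ3/ROT: equidistribution of the argument of `c ^ (n - 1)` on circles, by rotations
-/

set_option autoImplicit false
open Metric MeasureTheory Set Filter Topology

namespace Pool.Agent.N849.AZR

open Pool.Agent.W747.MB Pool.Agent.TH363.CD Pool.Agent.N228.AZ

theorem cont_Y (n : ℕ) : Continuous (Y n) := by
  unfold Pool.Agent.W747.MB.Y
  exact continuous_const.mul (continuous_norm.pow _)

theorem meas_Zn (n : ℕ) (a b : ℝ) : MeasurableSet (Zn n a b) :=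
  (measurableSet_le measurable_const (cont_Y n).measurable).inter
    (measurableSet_le (cont_Y n).measurable measurable_const)

/-- the rotation by the angle `t / (n - 1)` -/
noncomputable def R (n : ℕ) (t : ℝ) : ℂ ≃ₗᵢ[ℝ] ℂ := rotation (Circle.exp (t / (n - 1)))

theorem R_apply (n : ℕ) (t : ℝ) (c : ℂ) :
    R n t c = Complex.exp ((t / (n - 1) : ℝ) * Complex.I) * c := by
  rw [R, rotation_apply, Circle.coe_exp]

theorem Y_R (n : ℕ) (t : ℝ) (c : ℂ) : Y n (R n t c) = Y n c := by
  unfold Pool.Agent.W747.MB.Y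
  rw [LinearIsometryEquiv.norm_map]

theorem R_pow {n : ℕ} (hn : 2 ≤ n) (t : ℝ) (c : ℂ) :
    (R n t c) ^ (n - 1) = Complex.exp (t * Complex.I) * c ^ (n - 1) := by
  rw [R_apply, mul_pow, ← Complex.exp_nat_mul]
  congr 2
  have h1 : ((n - 1 : ℕ) : ℂ) = (n : ℂ) - 1 := by
    rw [Nat.cast_sub (by omega : 1 ≤ n), Nat.cast_one]
  have h2 : (n : ℂ) - 1 ≠ 0 := by
    rw [← h1]
    exact_mod_cast (by omega : n - 1 ≠ 0)
  rw [h1]
  push_cast
  field_simp

theorem re_R {n : ℕ} (hn : 2 ≤ n) (t : ℝ) (c : ℂ) :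
    ((n : ℂ) * (R n t c) ^ (n - 1)).re = Y n c * Real.cos (Complex.arg (c ^ (n - 1)) + t) := by
  rw [R_pow hn]
  set w := c ^ (n - 1) with hw
  have h1 : Y n c = n * ‖w‖ := by
    unfold Pool.Agent.W747.MB.Y
    rw [hw, norm_pow]
  have h2 : Complex.exp (t * Complex.I) * w = ‖w‖ * Complex.exp ((w.arg + t : ℝ) * Complex.I) := by
    conv_lhs => rw [← Complex.norm_mul_exp_arg_mul_I w]
    push_cast
    rw [add_mul, Complex.exp_add]
    ring
  rw [h2, h1, ← mul_assoc]
  have h3 : ((n : ℂ) * (‖w‖ : ℂ)) = ((n * ‖w‖ : ℝ) : ℂ) := by push_cast; rfl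
  rw [h3, Complex.re_ofReal_mul, Complex.exp_ofReal_mul_I_re]

theorem cos_meas' (τ s x : ℝ) (hτ : τ = 1 ∨ τ = -1) (hs0 : 0 ≤ s) (hs1 : s ≤ 1) :
    ENNReal.ofReal (Real.pi * (1 - s)) ≤
      volume (Icc 0 (2 * Real.pi) ∩ {t : ℝ | s ≤ τ * Real.cos (x + t)}) := by
  rcases hτ with rfl | rfl
  · simpa using Pool.Agent.N951.AZ.cos_meas s x hs0 hs1
  · have h1 := Pool.Agent.N951.AZ.cos_meas s (x + Real.pi) hs0 hs1
    have h2 : {t : ℝ | s ≤ -1 * Real.cos (x + t)} = {t : ℝ | s ≤ Real.cos (x + Real.pi + t)} := by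
      ext t
      rw [mem_ofPred_eq, mem_ofPred_eq, show x + Real.pi + t = (x + t) + Real.pi by ring,
        Real.cos_add_pi, neg_one_mul]
    rwa [h2]

theorem main : Pool.Agent.N228.AZ.P_ROT := by
  intro n τ a b h φ hn hτ hh hφ ha hY
  have hcY := (cont_Y n).measurable
  set E : Set ℂ := {c : ℂ | c ∈ Zn n a b ∧ h (Y n c) * Y n c ≤ τ * ((n:ℂ) * c ^ (n - 1)).re}
    with hE
  have hEm : MeasurableSet E := by
    refine (meas_Zn n a b).inter (measurableSet_le ((hh.comp hcY).mul hcY) ?_)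
    exact (Continuous.measurable (by fun_prop))
  set F : ℂ → ENNReal := E.indicator (fun c => ENNReal.ofReal (φ (Y n c))) with hF
  have hFm : Measurable F := ((hφ.comp hcY).ennreal_ofReal).indicator hEm
  have hpi := Real.pi_pos
  -- rotation invariance
  have hrot : ∀ t : ℝ, ∫⁻ c in E, ENNReal.ofReal (φ (Y n c)) = ∫⁻ c, F (R n t c) := by
    intro t
    rw [← lintegral_indicator hEm]
    exact ((R n t).measurePreserving.lintegral_comp hFm).symm
  have hRm : Measurable (fun p : ℝ × ℂ => R n p.1 p.2) := by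
    have h1 : (fun p : ℝ × ℂ => R n p.1 p.2) =
        fun p : ℝ × ℂ => Complex.exp ((p.1 / (n - 1) : ℝ) * Complex.I) * p.2 := by
      funext p
      exact R_apply n p.1 p.2
    rw [h1]
    exact Continuous.measurable (by fun_prop)
  have h2pi : ENNReal.ofReal (2 * Real.pi) ≠ 0 := by
    rw [Ne, ENNReal.ofReal_eq_zero]
    push Not
    positivity
  refine (ENNReal.mul_le_mul_iff_right h2pi ENNReal.ofReal_ne_top).mp ?_
  have hR1 : ENNReal.ofReal (2 * Real.pi) * ∫⁻ c in E, ENNReal.ofReal (φ (Y n c)) =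
      ∫⁻ c, ∫⁻ t in Icc 0 (2 * Real.pi), F (R n t c) := by
    calc ENNReal.ofReal (2 * Real.pi) * ∫⁻ c in E, ENNReal.ofReal (φ (Y n c))
        = ∫⁻ t in Icc 0 (2 * Real.pi), ∫⁻ c in E, ENNReal.ofReal (φ (Y n c)) := by
          rw [lintegral_const, Measure.restrict_apply_univ, Real.volume_Icc, sub_zero, mul_comm]
      _ = ∫⁻ t in Icc 0 (2 * Real.pi), ∫⁻ c, F (R n t c) := by
          refine lintegral_congr fun t => hrot t
      _ = _ := by
          rw [lintegral_lintegral_swap]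
          exact (hFm.comp hRm).aemeasurable
  rw [hR1]
  have hL1 : ENNReal.ofReal (2 * Real.pi) *
      ∫⁻ c in Zn n a b, ENNReal.ofReal ((1 - h (Y n c)) / 2 * φ (Y n c)) =
      ∫⁻ c, (Zn n a b).indicator (fun c => ENNReal.ofReal (φ (Y n c)) *
        ENNReal.ofReal (Real.pi * (1 - h (Y n c)))) c := by
    rw [← lintegral_const_mul' _ _ ENNReal.ofReal_ne_top, lintegral_indicator (meas_Zn n a b)]
    refine setLIntegral_congr_fun (meas_Zn n a b) fun c hc => ?_
    obtain ⟨h1, h2, h3⟩ := hY (Y n c) hc.1 hc.2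
    rw [← ENNReal.ofReal_mul (by positivity), ← ENNReal.ofReal_mul h3]
    congr 1
    ring
  rw [hL1]
  refine lintegral_mono fun c => ?_
  by_cases hc : c ∈ Zn n a b
  · rw [indicator_of_mem hc]
    obtain ⟨h1, h2, h3⟩ := hY (Y n c) hc.1 hc.2
    have hYp : 0 < Y n c := ha.trans_le hc.1
    have h4 : ∀ t, F (R n t c) = ({t : ℝ | h (Y n c) ≤ τ * Real.cos (Complex.arg (c ^ (n - 1)) + t)}
        : Set ℝ).indicator (fun _ => ENNReal.ofReal (φ (Y n c))) t := by
      intro t
      have h5 : R n t c ∈ E ↔ t ∈ ({t : ℝ | h (Y n c) ≤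
          τ * Real.cos (Complex.arg (c ^ (n - 1)) + t)} : Set ℝ) := by
        rw [hE, mem_ofPred_eq, mem_ofPred_eq, re_R hn, Y_R]
        have h6 : R n t c ∈ Zn n a b := by
          refine ⟨?_, ?_⟩
          · show a ≤ Y n (R n t c)
            rw [Y_R]; exact hc.1
          · show Y n (R n t c) ≤ b
            rw [Y_R]; exact hc.2
        constructor
        · rintro ⟨-, h7⟩
          have h8 : h (Y n c) * Y n c ≤ (τ * Real.cos (Complex.arg (c ^ (n - 1)) + t)) * Y n c := by
            linarith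
          exact le_of_mul_le_mul_right h8 hYp
        · intro h7
          refine ⟨h6, ?_⟩
          have h8 := mul_le_mul_of_nonneg_right h7 hYp.le
          linarith
      rw [hF]
      by_cases h7 : R n t c ∈ E
      · rw [indicator_of_mem h7, indicator_of_mem (h5.mp h7), Y_R]
      · rw [indicator_of_notMem h7, indicator_of_notMem (fun h8 => h7 (h5.mpr h8))]
    have hms : MeasurableSet ({t : ℝ | h (Y n c) ≤ τ * Real.cos (Complex.arg (c ^ (n - 1)) + t)}
        : Set ℝ) := measurableSet_le measurable_const (Continuous.measurable (by fun_prop))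
    calc ENNReal.ofReal (φ (Y n c)) * ENNReal.ofReal (Real.pi * (1 - h (Y n c)))
        ≤ ENNReal.ofReal (φ (Y n c)) * volume (Icc 0 (2 * Real.pi) ∩
          {t : ℝ | h (Y n c) ≤ τ * Real.cos (Complex.arg (c ^ (n - 1)) + t)}) := by
          gcongr
          exact cos_meas' τ _ _ hτ h1 h2
      _ = ∫⁻ t in Icc 0 (2 * Real.pi), F (R n t c) := by
          simp_rw [h4]
          rw [lintegral_indicator hms, setLIntegral_const, Measure.restrict_apply hms, inter_comm]
  · rw [indicator_of_notMem hc]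
    exact bot_le

end Pool.Agent.N849.AZR

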